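import Pool.Agent.Helper22_AHH.FrmN

/-!
# The numbers of the field `frm`, part 2
-/

set_option autoImplicit false

open scoped BigOperators NNReal Matrix

noncomputable section

namespace Pool.Agent.AHH.H22

open Pool.Agent.AND.Num
open Pool.Agent.LTG.Inc

/-- `u` -/
def uN (d : ℕ) (C x : ℝ) : ℝ := (2 + 400 * (d : ℝ) ^ 2) * (16 * C * x)

section alg

variable {d : ℕ} {c C s q W x D w t : ℝ}

theorem m1 (hc : 0 < c) (hs : 0 < s) (hq : s / 2 ≤ q) (hW : 0 < W) (hx : 0 < x)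
    (h : t ≤ c ^ 2 / 64 * (W * x ^ 2 * s)) : t ≤ W * x ^ 2 * (c / 2 * q * (c / 2)) := by
  have hwm : c ^ 2 / 8 * s ≤ c / 2 * q * (c / 2) := by
    have h5 := mul_le_mul_of_nonneg_left hq (by positivity : 0 ≤ c ^ 2 / 4)
    linarith
  refine h.trans ?_
  have h6 : 0 ≤ c ^ 2 * (W * x ^ 2 * s) := by positivity
  calc c ^ 2 / 64 * (W * x ^ 2 * s) ≤ W * x ^ 2 * (c ^ 2 / 8 * s) := by linarith
    _ ≤ _ := mul_le_mul_of_nonneg_left hwm (by positivity)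

theorem m2 (hc : 0 < c) (hc' : c ≤ 1 / 2) (hs1 : s ≤ 1) (hW : 0 < W)
    (hx : 0 < x) (hD : 1 ≤ D) (h : t ≤ c ^ 2 / 64 * (W * x ^ 2 * s)) :
    t ≤ W * x ^ 2 * (c * D / 2) := by
  have hWx : 0 < W * x ^ 2 := by positivity
  refine h.trans ?_
  have h6 : W * x ^ 2 * s ≤ W * x ^ 2 := mul_le_of_le_one_right hWx.le hs1
  have h7 : c ^ 2 / 64 ≤ c / 2 := by nlinarith
  have h5 : c ^ 2 / 64 * (W * x ^ 2 * s) ≤ c / 2 * (W * x ^ 2) :=
    (mul_le_mul_of_nonneg_left h6 (by positivity)).trans (mul_le_mul_of_nonneg_right h7 hWx.le)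
  refine h5.trans ?_
  have h8 : c / 2 * (W * x ^ 2) ≤ c / 2 * (W * x ^ 2) * D :=
    le_mul_of_one_le_right (by positivity) hD
  linarith

theorem wx_le (hW0 : 0 < W) (hW1 : W ≤ 1) (hx0 : 0 < x) (hx1 : x ≤ 1) : W * x ^ 2 ≤ x := by
  calc W * x ^ 2 ≤ 1 * x ^ 2 := mul_le_mul_of_nonneg_right hW1 (by positivity)
    _ ≤ x := by nlinarith

theorem m3 (hc : 0 < c) (hs : 0 < s) (hq : s / 2 ≤ q) (hW : 0 < W) (hW1 : W ≤ 1) (hx : 0 < x)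
    (hx1 : x ≤ 1) (h : t ≤ c ^ 2 / 64 * (W * x ^ 2 * s)) : t ≤ x / 8 * (c / 2 * q * (c / 2)) := by
  have hwm : c ^ 2 / 8 * s ≤ c / 2 * q * (c / 2) := by
    have h5 := mul_le_mul_of_nonneg_left hq (by positivity : 0 ≤ c ^ 2 / 4)
    linarith
  refine h.trans ?_
  calc c ^ 2 / 64 * (W * x ^ 2 * s) ≤ c ^ 2 / 64 * (x * s) :=
        mul_le_mul_of_nonneg_left (mul_le_mul_of_nonneg_right (wx_le hW hW1 hx hx1) hs.le)
          (by positivity)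
    _ = x / 8 * (c ^ 2 / 8 * s) := by ring
    _ ≤ _ := mul_le_mul_of_nonneg_left hwm (by positivity)

theorem m4 (hc : 0 < c) (hc' : c ≤ 1 / 2) (hs : 0 < s) (hs1 : s ≤ 1) (hW : 0 < W)
    (hW1 : W ≤ 1) (hx : 0 < x) (hx1 : x ≤ 1) (hD : 1 ≤ D)
    (h : t ≤ c ^ 2 / 64 * (W * x ^ 2 * s)) : t ≤ x / 2 * (c * D) := by
  refine h.trans ?_
  have h6 : W * x ^ 2 * s ≤ x :=
    (mul_le_of_le_one_right (by positivity) hs1).trans (wx_le hW hW1 hx hx1)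
  have h7 : c ^ 2 / 64 ≤ c / 2 := by nlinarith
  calc c ^ 2 / 64 * (W * x ^ 2 * s) ≤ c / 2 * x :=
        (mul_le_mul_of_nonneg_left h6 (by positivity)).trans
          (mul_le_mul_of_nonneg_right h7 hx.le)
    _ ≤ c / 2 * x * D := le_mul_of_one_le_right (by positivity) hD
    _ = x / 2 * (c * D) := by ring

theorem m5 (C y : ℝ) : (2 + 400 * (d : ℝ) ^ 2) * (2 * y + 2 * y) *
    (2 / (1 - (1 - 1 / (2 * C)))) ≤ uN d C y := by
  have h5 : 2 / (1 - (1 - 1 / (2 * C))) = 4 * C := by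
    have : 2 / (1 - (1 - 1 / (2 * C))) = 2 * (1 / (1 - (1 - 1 / (2 * C)))) := by ring
    rw [this, sub_sub_cancel, one_div_one_div]
    ring
  rw [h5]
  unfold uN
  refine le_of_eq ?_
  ring

theorem m6 (hC : 1 ≤ C) (hW : 0 < W) (hW1 : W ≤ 1) (hx : 0 < x)
    (h : (2 + 400 * (d : ℝ) ^ 2) * x * (2048 * C ^ 4) ≤ c) (hc' : c ≤ 1 / 2) :
    uN d C (W * x ^ 2) ≤ x / 8 := by
  have hC0 : 0 < C := by linarith
  have hCC4 : C ≤ C ^ 4 := by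
    calc C = C ^ 1 := (pow_one C).symm
      _ ≤ C ^ 4 := pow_le_pow_right₀ hC (by norm_num)
  unfold uN
  have h6 : 16 * C * (W * x ^ 2) ≤ 16 * C ^ 4 * x ^ 2 :=
    mul_le_mul (mul_le_mul_of_nonneg_left hCC4 (by norm_num))
      (mul_le_of_le_one_left (by positivity) hW1) (by positivity) (by positivity)
  have h5 : (2 + 400 * (d : ℝ) ^ 2) * (16 * C * (W * x ^ 2)) ≤
      (2 + 400 * (d : ℝ) ^ 2) * x * (16 * C ^ 4) * x := by
    calc (2 + 400 * (d : ℝ) ^ 2) * (16 * C * (W * x ^ 2))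
        ≤ (2 + 400 * (d : ℝ) ^ 2) * (16 * C ^ 4 * x ^ 2) :=
          mul_le_mul_of_nonneg_left h6 (by positivity)
      _ = _ := by ring
  refine h5.trans ?_
  have h7 : (2 + 400 * (d : ℝ) ^ 2) * x * (16 * C ^ 4) ≤ 1 / 8 := by
    have : (2 + 400 * (d : ℝ) ^ 2) * x * (16 * C ^ 4) * 128 ≤ 1 / 2 := by linarith
    linarith
  calc (2 + 400 * (d : ℝ) ^ 2) * x * (16 * C ^ 4) * x ≤ 1 / 8 * x :=
        mul_le_mul_of_nonneg_right h7 hx.le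
    _ = x / 8 := by ring

theorem m7 (hC : 1 ≤ C) (hw : 0 < w) (hW : 0 < W) (hx : 0 < x) (hWD : W * (1 / w) ≤ D)
    (h : (2 + 400 * (d : ℝ) ^ 2) * x * (2048 * C ^ 4) ≤ c) :
    uN d C (W * x ^ 2) * (2 * (4 * C ^ 3 / w)) ≤ x / 2 * (c * D) := by
  have hC0 : 0 < C := by linarith
  unfold uN
  have h5 : (2 + 400 * (d : ℝ) ^ 2) * (16 * C * (W * x ^ 2)) * (2 * (4 * C ^ 3 / w)) =
      (2 + 400 * (d : ℝ) ^ 2) * x * (128 * C ^ 4) * x * (W * (1 / w)) := by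
    rw [div_eq_mul_one_div (4 * C ^ 3) w]
    ring
  rw [h5]
  have h8 : 0 ≤ (2 + 400 * (d : ℝ) ^ 2) * x * (128 * C ^ 4) := by positivity
  have h6 : (2 + 400 * (d : ℝ) ^ 2) * x * (128 * C ^ 4) ≤ c / 2 := by
    have h7 : (2 + 400 * (d : ℝ) ^ 2) * x * (128 * C ^ 4) * 16 ≤ c := by linarith
    linarith
  calc (2 + 400 * (d : ℝ) ^ 2) * x * (128 * C ^ 4) * x * (W * (1 / w))
      ≤ c / 2 * x * D :=
        mul_le_mul (mul_le_mul_of_nonneg_right h6 hx.le) hWD (by positivity)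
          (mul_nonneg (h8.trans h6) hx.le)
    _ = x / 2 * (c * D) := by ring

theorem m8 (hd : 1 ≤ d) (hC : 1 ≤ C) (hx : 0 < x)
    (h : (2 + 400 * (d : ℝ) ^ 2) * x * (2048 * C ^ 4) ≤ c) (hc' : c ≤ 1 / 2) :
    32 * x ≤ 1 - (1 - 1 / (2 * C)) := by
  have hC0 : 0 < C := by linarith
  have hCC4 : C ≤ C ^ 4 := by
    calc C = C ^ 1 := (pow_one C).symm
      _ ≤ C ^ 4 := pow_le_pow_right₀ hC (by norm_num)
  rw [sub_sub_cancel, le_div_iff₀ (by positivity)]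
  have h5 : (64 : ℝ) ≤ (2 + 400 * (d : ℝ) ^ 2) * 2048 := by
    have hd1 : (1 : ℝ) ≤ d := by exact_mod_cast hd
    nlinarith
  have h6 : x * C ≤ x * C ^ 4 := mul_le_mul_of_nonneg_left hCC4 hx.le
  have h7 : 64 * (x * C) ≤ (2 + 400 * (d : ℝ) ^ 2) * 2048 * (x * C ^ 4) :=
    mul_le_mul h5 h6 (by positivity) (by positivity)
  linarith

/-- `704 d ≤ β ℓ` -/
theorem m9 (hd : 1 ≤ d) {ℓ : ℕ} (hc : 0 < c) (hs : 0 < s) (hq : s / 2 ≤ q)
    (hℓ : s ^ (-(5 : ℝ)) ≤ ℓ) (h : 32 * (d : ℝ) ^ 2 * 704 * s ^ 4 ≤ c) :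
    704 * d ≤ c / 2 * q / (8 * d) * ℓ := by
  have hd1 : (1 : ℝ) ≤ d := by exact_mod_cast hd
  have hd0 : (0 : ℝ) < d := by linarith
  have h5 : s ^ (-(5 : ℝ)) * s ^ 5 = 1 := by
    have h0 : s ^ (5 : ℕ) = s ^ (5 : ℝ) := by
      rw [← Real.rpow_natCast]
      norm_num
    rw [h0, ← Real.rpow_add hs]
    norm_num
  have h6 : 1 ≤ (ℓ : ℝ) * s ^ 5 := by
    rw [← h5]
    exact mul_le_mul_of_nonneg_right hℓ (by positivity)
  have h7 : c / 2 * (s / 2) / (8 * d) * ℓ ≤ c / 2 * q / (8 * d) * ℓ := by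
    gcongr
  refine le_trans ?_ h7
  have h8 : 704 * (d : ℝ) * s ^ 4 ≤ c / 2 * (s / 2) / (8 * d) * ℓ * s ^ 4 := by
    have h9 : c / 2 * (s / 2) / (8 * d) * ℓ * s ^ 4 = c / (32 * d) * ((ℓ : ℝ) * s ^ 5) := by
      field_simp
      ring
    rw [h9]
    have h10 : c / (32 * d) * 1 ≤ c / (32 * d) * ((ℓ : ℝ) * s ^ 5) :=
      mul_le_mul_of_nonneg_left h6 (by positivity)
    refine le_trans ?_ h10
    rw [mul_one, le_div_iff₀ (by positivity)]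
    calc 704 * (d : ℝ) * s ^ 4 * (32 * d) = 32 * (d : ℝ) ^ 2 * 704 * s ^ 4 := by ring
      _ ≤ c := h
  exact le_of_mul_le_mul_right h8 (by positivity)

end alg

/-- the powers of `w` -/
theorem pow_w {w : ℝ} (hw0 : 0 < w) (hw1 : w ≤ 1) :
    0 < w ^ (1 / 50 : ℝ) ∧ w ^ (1 / 50 : ℝ) ≤ 1 ∧ 1 ≤ w ^ (8 * (1 / 10000) - 1 : ℝ) ∧
      w ^ (8 * (1 / 10000) - 1 : ℝ) ≤ 1 / w ∧
      w ^ (1 / 50 : ℝ) * (1 / w) ≤ w ^ (8 * (1 / 10000) - 1 : ℝ) := by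
  have hi : 1 / w = w ^ (-1 : ℝ) := by rw [Real.rpow_neg_one, one_div]
  refine ⟨Real.rpow_pos_of_pos hw0 _, Real.rpow_le_one hw0.le hw1 (by norm_num),
    Real.one_le_rpow_of_pos_of_le_one_of_nonpos hw0 hw1 (by norm_num), ?_, ?_⟩
  · rw [hi]
    exact Real.rpow_le_rpow_of_exponent_ge hw0 hw1 (by norm_num)
  · rw [hi, ← Real.rpow_add hw0]
    exact Real.rpow_le_rpow_of_exponent_ge hw0 hw1 (by norm_num)

/-- the numbers for all small `s` -/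
theorem small_num (d : ℕ) (hd : 1 ≤ d) (c C e : ℝ) (hc : 0 < c) (hc' : c ≤ 1 / 2) (hC : 1 ≤ C)
    (he : 0 < e) (he' : e ≤ 1 / 9000) :
    Small fun s => ∀ (w q r0 : ℝ) (ℓ : ℕ), s ≤ w → w ≤ 1 → s / 2 ≤ q →
      s ^ (-(5 : ℝ)) ≤ ℓ → 8 * r0 ≤ ℓ →
      NumF d (c * w ^ (8 * (1 / 10000) - 1 : ℝ)) (4 * C ^ 3 / w) (1 - 1 / (2 * C)) (s ^ e)
        (2 * (w ^ (1 / 50 : ℝ) * s ^ (2 * e))) (w ^ (1 / 50 : ℝ) * s ^ (2 * e))
        (uN d C (w ^ (1 / 50 : ℝ) * s ^ (2 * e))) (c / 2 * q / (8 * d)) r0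
        (1 / (c / 2 * (c / 2 * q))) (c / 2 * q * (c / 2)) ℓ ((2 * ℓ + 1) ^ d) ∧
      704 * d ≤ c / 2 * q / (8 * d) * ℓ := by
  have hC0 : 0 < C := by linarith
  have t1 := tails d hd (c / 2) (by positivity) (by linarith)
  have t2 := small_pow' 1 (c ^ 2 / 64) 3 (1 / 50 + 2 * e + 1) (by positivity) (by linarith)
  have t3 := small_pow' (2 + 400 * (d : ℝ) ^ 2) (c / (2048 * C ^ 4)) e 0 (by positivity) he
  have t4 := small_pow' (32 * (d : ℝ) ^ 2 * 704) c 4 0 hc (by norm_num)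
  refine ((((t1.and t2).and t3).and t4).and (small_le 1 one_pos)).mono ?_
  clear t1 t2 t3 t4
  rintro s hs ⟨⟨⟨⟨t1, t2⟩, t3⟩, t4⟩, hs1⟩ w q r0 ℓ hsw hw1 hq1 hℓ hr
  obtain ⟨n1, n2⟩ := t1 q r0 ℓ hq1 hℓ hr
  have hw0 : 0 < w := hs.trans_le hsw
  rw [Real.rpow_zero, mul_one] at t3 t4
  rw [one_mul] at t2
  have h3s : s ^ (3 : ℝ) = s ^ 3 := by
    rw [← Real.rpow_natCast]
    norm_num
  have h4s : s ^ (4 : ℝ) = s ^ 4 := by
    rw [← Real.rpow_natCast]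
    norm_num
  rw [h3s] at t2
  rw [h4s] at t4
  obtain ⟨hW0, hW1, hD1, hDw, hWD⟩ := pow_w hw0 hw1
  have hWs : s ^ (1 / 50 : ℝ) ≤ w ^ (1 / 50 : ℝ) := Real.rpow_le_rpow hs.le hsw (by norm_num)
  generalize w ^ (1 / 50 : ℝ) = W at *
  generalize w ^ (8 * (1 / 10000) - 1 : ℝ) = D at *
  have hx2 : s ^ (2 * e) = (s ^ e) ^ 2 := by
    rw [← Real.rpow_natCast, ← Real.rpow_mul hs.le]
    congr 1
    push_cast
    ring
  have hp : s ^ (1 / 50 + 2 * e + 1 : ℝ) = s ^ (1 / 50 : ℝ) * (s ^ e) ^ 2 * s := by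
    rw [Real.rpow_add hs, Real.rpow_add hs, Real.rpow_one, hx2]
  have hx0 : 0 < s ^ e := Real.rpow_pos_of_pos hs _
  have hx1 : s ^ e ≤ 1 := Real.rpow_le_one hs.le hs1 he.le
  rw [hp] at t2
  rw [hx2]
  generalize s ^ e = x at *
  have t2' : s ^ 3 ≤ c ^ 2 / 64 * (W * x ^ 2 * s) := by
    refine t2.trans (mul_le_mul_of_nonneg_left ?_ (by positivity))
    exact mul_le_mul_of_nonneg_right (mul_le_mul_of_nonneg_right hWs (by positivity)) hs.le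
  have t3' : (2 + 400 * (d : ℝ) ^ 2) * x * (2048 * C ^ 4) ≤ c := by
    have h5 := mul_le_mul_of_nonneg_right t3 (by positivity : (0 : ℝ) ≤ 2048 * C ^ 4)
    have h6 : c / (2048 * C ^ 4) * (2048 * C ^ 4) = c := div_mul_cancel₀ _ (by positivity)
    rw [h6] at h5
    exact h5
  refine ⟨?_, m9 hd hc hs hq1 hℓ t4⟩
  refine
    { hu0 := ?_, hD0 := mul_pos hc (by linarith), hD1 := ?_, he1 := by positivity,
      hm := by positivity, n1 := m1 hc hs hq1 hW0 hx0 (n1.trans t2'),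
      n2 := m2 hc hc' hs1 hW0 hx0 hD1 (n2.trans t2'),
      n3 := m3 hc hs hq1 hW0 hW1 hx0 hx1 (n1.trans t2'),
      n4 := m4 hc hc' hs hs1 hW0 hW1 hx0 hx1 hD1 (n2.trans t2'), n5 := m5 C _,
      n6 := m6 hC hW0 hW1 hx0 t3' hc', n7 := m7 hC hw0 hW0 hx0 hWD t3',
      n8 := m8 hd hC hx0 t3' hc' }
  · have h5 : 1 / (2 * C) ≤ 1 := by
      rw [div_le_one (by positivity)]
      linarith
    have h6 : 0 < 1 / (2 * C) := by positivity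
    constructor <;> linarith
  · calc c * D ≤ 1 * (1 / w) := mul_le_mul (by linarith) hDw (by linarith) (by norm_num)
      _ ≤ 4 * C ^ 3 * (1 / w) := by
        refine mul_le_mul_of_nonneg_right ?_ (by positivity)
        have : (1 : ℝ) ≤ C ^ 3 := one_le_pow₀ hC
        linarith
      _ = 4 * C ^ 3 / w := by ring

end Pool.Agent.AHH.H22
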