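import Pool.Agent.Helper22_AHH.FrmB
import Pool.Agent.Helper22_AHH.FrmM
import Pool.Agent.Helper89_FAR.LclZ
import Pool.Agent.Helper58_AHH.FloZ

/-!
# The form part of the field flo, for the concrete numbers
-/

set_option autoImplicit false

open scoped BigOperators NNReal Matrix

noncomputable section

namespace Pool.Agent.AHH.H22

open Pool.Agent.AND2B (Ev)
open Pool.Agent.ANP (Cfg Geo Fc)
open Pool.Agent.ANR.H89 (cI geoF_T ev_w1 ev_cI hsum_G)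
open Pool.Agent.AHH.H61

/-- (FLO.frm) -/
theorem frmZ : H58.FrmZStmt := by
  intro d a c C hd ha hc hc' hC
  have h1 : Ev d a es c C fun V => ∀ s : ℝ, 0 < s → s ≤ V.w → s ≤ 1 ∧
      (∀ (w q r0 : ℝ) (ℓ : ℕ), s ≤ w → w ≤ 1 → s / 2 ≤ q →
      s ^ (-(5 : ℝ)) ≤ ℓ → 8 * r0 ≤ ℓ →
      NumF d (c * w ^ (8 * (1 / 10000) - 1 : ℝ)) (4 * C ^ 3 / w) (1 - 1 / (2 * C))
        (s ^ kaf V.α)
        (2 * (w ^ (1 / 50 : ℝ) * s ^ (2 * kaf V.α))) (w ^ (1 / 50 : ℝ) * s ^ (2 * kaf V.α))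
        (uN d C (w ^ (1 / 50 : ℝ) * s ^ (2 * kaf V.α))) (c / 2 * q / (8 * d)) r0
        (1 / (c / 2 * (c / 2 * q))) (c / 2 * q * (c / 2)) ℓ ((2 * ℓ + 1) ^ d) ∧
      704 * d ≤ c / 2 * q / (8 * d) * ℓ) ∧ 2 * s ^ (5 : ℝ) ≤ 1 * s ^ (0 : ℝ) :=
    ev_small (fun _ _ _ α _ s => s ≤ 1 ∧
      (∀ (w q r0 : ℝ) (ℓ : ℕ), s ≤ w → w ≤ 1 → s / 2 ≤ q →
      s ^ (-(5 : ℝ)) ≤ ℓ → 8 * r0 ≤ ℓ →
      NumF d (c * w ^ (8 * (1 / 10000) - 1 : ℝ)) (4 * C ^ 3 / w) (1 - 1 / (2 * C))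
        (s ^ kaf α)
        (2 * (w ^ (1 / 50 : ℝ) * s ^ (2 * kaf α))) (w ^ (1 / 50 : ℝ) * s ^ (2 * kaf α))
        (uN d C (w ^ (1 / 50 : ℝ) * s ^ (2 * kaf α))) (c / 2 * q / (8 * d)) r0
        (1 / (c / 2 * (c / 2 * q))) (c / 2 * q * (c / 2)) ℓ ((2 * ℓ + 1) ^ d) ∧
      704 * d ≤ c / 2 * q / (8 * d) * ℓ) ∧ 2 * s ^ (5 : ℝ) ≤ 1 * s ^ (0 : ℝ))
      fun th c₁ C₁ α J _ _ _ hα => (AND.Num.small_le 1 one_pos).and
        ((small_num d (by omega) c C (kaf α) hc hc' hC (kaf_pos α) (kaf_le hα)).and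
          (AND.Num.small_pow' 2 1 5 0 one_pos (by norm_num)))
  refine (((ev_good.and ev_w1).and (ev_cI 8)).and h1).imp fun V hV => ?_
  obtain ⟨⟨⟨hG, hw1⟩, hcI⟩, hs⟩ := hV
  have hP : V.Pre a := hG.toPre
  intro n k hn hk1 hk2 T₀ T run₀ run P B ζ hMd hF hB hne hPB hGd
  have hth := hP.th
  have hs0 := cl_pos' hP k
  have hsw := cl_le' hP k
  obtain ⟨hs1, hnum, h5⟩ := hs (V.cl k) hs0 hsw
  -- the side of the blocks
  have hLn : ((V.G.L n : ℕ) : ℝ) = 2 ^ V.l n := by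
    show (((2 ^ V.l n : ℕ)) : ℝ) = 2 ^ V.l n
    push_cast
    rfl
  have hL5 : (V.cl k : ℝ) ^ (-(5 : ℝ)) ≤ V.G.L n := by
    rw [hLn]
    refine le_trans ?_ (hP.sc.llow n hn)
    exact Real.rpow_le_rpow_of_nonpos (sg_pos hP _) (cl_anti' hP hk2.le) (by norm_num)
  have hl1 : 1 ≤ V.l n := by
    by_contra hc0
    have hl0 : V.l n = 0 := by omega
    rw [hLn, hl0, pow_zero] at hL5
    rw [Real.rpow_zero, mul_one] at h5
    have h6 : (V.cl k : ℝ) ^ (-(5 : ℝ)) * (V.cl k : ℝ) ^ (5 : ℝ) = 1 := by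
      rw [← Real.rpow_add hs0]
      norm_num
    have h7 := mul_le_mul_of_nonneg_right hL5 (Real.rpow_nonneg hs0.le (5 : ℝ))
    rw [h6] at h7
    linarith
  have hR : 2 * 2 ^ (V.l n - 1) = V.G.L n := by
    show 2 * 2 ^ (V.l n - 1) = 2 ^ V.l n
    rw [← pow_succ']
    congr 1
    omega
  have hq : (V.cl k : ℝ) / 2 ≤ V.cl (k + 1) := by
    have h6 : (V.cl (k + 1) : ℝ) = V.th * V.cl k := by
      rw [cl_succ]
      push_cast
      rfl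
    have h7 : (1 / 2 : ℝ) ≤ V.th := by exact_mod_cast hth.1
    rw [h6]
    have h8 := mul_le_mul_of_nonneg_right h7 hs0.le
    linarith
  obtain ⟨hN, h704⟩ := hnum V.w (V.cl (k + 1)) (cI d V.Dn (Finset.range (n + 1)) + 1) (V.G.L n)
    hsw hw1 hq hL5 (hcI n hn).1
  have hth23 : V.th ≤ 1 := hth.2.le
  -- the gauge
  have hg : ∀ x ∈ Al T, c / 2 ≤ gg T x := by
    intro x hx
    have h6 : T.mb = T₀.mb := hMd.mb
    have h7 : x ∈ Al T₀ := by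
      rw [H67.mem_Al] at hx ⊢
      rcases hMd.clk x with h8 | ⟨-, -, h8⟩
      · rwa [h8] at hx
      · rcases eq_zero_or_pos (a := T₀.s x) with h0 | h0
        · rw [h8, h0, mul_zero] at hx
          exact absurd hx (lt_irrefl 0)
        · exact h0
    have h8 := (hMd.st0.gau x h7).1
    show c / 2 ≤ (T.mb x).im
    rw [h6]
    exact h8
  have hlμ : V.l n + 4 ≤ V.μ := by
    have h1 := hP.sc.lN
    have h2 := hP.sc.lm hn
    omega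
  refine frm_of (V := toE V c C) (bd := bud V) (p := H17.parZ V c C n k) (P := P) (run := run)
    (m := (V.w : ℝ) ^ (1 / 50 : ℝ) * (V.cl k : ℝ) ^ (2 * ka V))
    (u := uN d C ((V.w : ℝ) ^ (1 / 50 : ℝ) * (V.cl k : ℝ) ^ (2 * ka V)))
    (R := 2 ^ (V.l n - 1)) (by omega) (geoF_T d V.μ V.J V.N V.l V.r hP.sc.lm)
    (fun x y => rfl) (th_pos hP) hth23 (fun k => cl_succ V k)
    (fun k => cl_pos V hP.w (th_pos hP) k) ?_ hG.e0 ?_ ?_ hg hF hPB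
    (hsum_G hP (by omega)) (hcI n hn).1 hB hne hR ?_ h704 hN (fun x hx hxB => ?_) ζ hGd
  · show V.cl 0 ≤ 1
    rw [cl_zero]
    exact_mod_cast hw1
  · show 0 < c / 2
    positivity
  · show c / 2 ≤ 1
    linarith
  · show 0 < 2 ^ V.l n
    positivity
  · exact Finset.mem_filter.2 ⟨hx, H67.box_of_D (V.l n) B x hlμ hxB⟩

end Pool.Agent.AHH.H22
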