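import Pool.Agent.Helper22_LTG.Inc
import Pool.Agent.AHH.Defs

/-!
# The field `frm` of `AHH.Inc`

From `Upd` (helper89), the plateau function, and `Fl.Good.frm`: the form bounds after one block update,
literally as in `AHH.Inc.frm`. The two tails `TN'`, `TE'` are explicit and exponentially small.
-/

set_option autoImplicit false

open scoped BigOperators NNReal Matrix

noncomputable section

namespace Pool.Agent.AHH.H22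

open Pool.Agent.BED (Tor)
open Pool.Agent.AND2B (net kap Hr Vef)
open Pool.Agent.ANP (Cfg Geo)
open Pool.Agent.ANP.H61 (sd)
open Pool.Agent.AFJ (EE)
open Pool.Agent.ANR (Gr)
open Pool.Agent.ANR.H89 (Upd)
open Pool.Agent.LTG (Fm Bd sT tT qd Lad)
open Pool.Agent.LTG.Inc

variable {d M : ℕ} [NeZero M]

/-- the resistances of the ladder of one block update -/
def lamT (e₀ : ℝ) (T T' : Cfg (Tor d M)) (F : Finset (Tor d M)) (x : Tor d M) : ℝ :=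
  if x ∈ F then 1 / gg T x * (1 / kap e₀ T' x - 1 / kap e₀ T x) else 0

theorem tn_mono {β r0 τs : ℝ} {ℓ : ℕ} (hβ : 0 < β) (hτs : 0 ≤ τs) {nb nb' : ℕ} (h : nb ≤ nb') :
    TN' d β r0 τs ℓ nb ≤ TN' d β r0 τs ℓ nb' := by
  unfold TN' LTG.Fst.TN
  have h1 : (nb : ℝ) ≤ nb' := by exact_mod_cast h
  gcongr

theorem te_mono {β r0 τs : ℝ} {ℓ : ℕ} (hβ : 0 < β) (hτs : 0 ≤ τs) {nb nb' : ℕ} (h : nb ≤ nb') :
    TE' d β r0 τs ℓ nb ≤ TE' d β r0 τs ℓ nb' := by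
  unfold TE' LTG.Fst.TE
  have h1 : (nb : ℝ) ≤ nb' := by exact_mod_cast h
  gcongr

/-- the alive sites do not change -/
theorem al_hf {T : Cfg (Tor d M)} {th : ℝ≥0} (hth : 0 < th) (F : Finset (Tor d M))
    (ζ : Tor d M → ℝ) : Al (T.hf th F ζ) = Al T := by
  unfold Al Cfg.hf
  refine Finset.filter_congr fun x _ => ?_
  simp only
  by_cases hx : x ∈ F
  · rw [if_pos hx]
    constructor
    · intro h
      rcases eq_zero_or_pos (a := T.s x) with h0 | h0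
      · rw [h0, mul_zero] at h; exact absurd h (lt_irrefl 0)
      · exact h0
    · intro h
      exact mul_pos hth h
  · rw [if_neg hx]

/-- the numbers -/
structure NumF (d : ℕ) (D₀ D₁ u₀ nn e1 m u β r0 τs wm : ℝ) (ℓ nb : ℕ) : Prop where
  hu0 : 0 ≤ u₀ ∧ u₀ < 1
  hD0 : 0 < D₀
  hD1 : D₀ ≤ D₁
  he1 : 0 ≤ e1
  hm : 0 ≤ m
  n1 : TN' d β r0 τs ℓ nb ≤ m * wm
  n2 : TE' d β r0 τs ℓ nb ≤ m * (D₀ / 2)
  n3 : TN' d β r0 τs ℓ nb ≤ nn / 8 * wm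
  n4 : TE' d β r0 τs ℓ nb ≤ nn / 2 * D₀
  n5 : (2 + 400 * (d : ℝ) ^ 2) * (e1 + 2 * m) * (2 / (1 - u₀)) ≤ u
  n6 : u ≤ nn / 8
  n7 : u * (2 * D₁) ≤ nn / 2 * D₀
  n8 : 32 * nn ≤ 1 - u₀

/-- (INC.frm) the form bounds after one block update -/
theorem inc_frm (hd : 0 < d) {V : Env d M} {b : Bud} {n k : ℕ} {B : Tor d M}
    {T : Cfg (Tor d M)} {ζ φ : Tor d M → ℝ} {F S : Finset (Tor d M)}
    {h₀ k₀ β : ℝ} (hΓ : ∀ x y, V.Γ.D x y = sd x y) (hth : 0 < V.th) (hth1 : V.th ≤ 1)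
    (he : 0 < V.e₀) (hc₀ : 0 < V.c₀) (hg : ∀ x ∈ Al T, V.c₀ ≤ gg T x)
    (hU : Upd (Hr (Vef T) V.E) (Hr (Vef (T.hf V.th F ζ)) V.E) (kap V.e₀ T)
      (kap V.e₀ (T.hf V.th F ζ)) φ F (Al T) S h₀ k₀ β)
    (hFA : F ⊆ Al T) (hβ : 0 < β) {R : ℕ} (hℓ : 0 < V.Γ.L n) (hℓR : 2 * R = V.Γ.L n)
    (hFB : ∀ x ∈ F, V.Γ.D x B ≤ V.Γ.L n) {r0 : ℝ} (hr0 : 0 ≤ r0) (hr8 : 8 * r0 ≤ V.Γ.L n)
    (hβℓ : 704 * d ≤ β * V.Γ.L n) (hφ : ∀ y, ∃ x ∈ F, 1 / 2 * (V.Γ.D x y : ℝ) - r0 ≤ φ y)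
    (hφ1 : ∀ e : Bd d M, |φ (tT e) - φ (sT e)| ≤ 1) {e1 m u : ℝ} {nb : ℕ} (hnb : F.card ≤ nb)
    (hN : NumF d V.D₀ V.D₁ V.u₀ (b.nn n k) e1 m u β r0 (1 / (V.c₀ * k₀)) (k₀ * V.c₀)
      (V.Γ.L n) nb)
    (hfrm : ∀ E1 : Matrix (Tor d M) (Tor d M) ℝ,
      Lad (Ef V.E V.e₀ T) E1 (lamT V.e₀ T (T.hf V.th F ζ) F) →
      ∀ f : Tor d M → ℝ, (∀ x, ¬ (x ∈ Al T ∧ V.Γ.D x B ≤ 2 * V.Γ.L n) → f x = 0) →
        |qd (Ef V.E V.e₀ (T.hf V.th F ζ)) f - qd E1 f| ≤ e1 * qd E1 f)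
    (εl εu : Tor d M → ℝ) (bl bu : Bd d M → ℝ)
    (h : Fm sT tT (Al T) (ww V.e₀ T) εl εu bl bu (qd (Ef V.E V.e₀ T)))
    (h1 : ∀ x ∈ Al T, 0 ≤ εl x ∧ εl x ≤ 1 / 8 ∧ 0 ≤ εu x ∧ εu x ≤ (1 + V.u₀) / 2)
    (h2 : ∀ e, V.D₀ / 2 ≤ bl e ∧ V.D₁ ≤ bu e ∧ bu e ≤ 2 * V.D₁) :
    Fm sT tT (Al T) (ww V.e₀ (T.hf V.th F ζ))
      (fun x => εl x * (ww V.e₀ (T.hf V.th F ζ) x / ww V.e₀ T x) + b.nn n k * om V.Γ n B x)
      (fun x => εu x * (ww V.e₀ (T.hf V.th F ζ) x / ww V.e₀ T x) + b.nn n k * om V.Γ n B x)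
      (fun e => bl e - V.D₀ * (b.nn n k * om V.Γ n B (sT e)))
      (fun e => bu e + V.D₁ * (b.nn n k * om V.Γ n B (sT e)))
      (qd (Ef V.E V.e₀ (T.hf V.th F ζ))) := by
  have hal := al_hf (T := T) hth F ζ
  set T' := T.hf V.th F ζ with hT'
  have hk₀ := hU.hk₀
  have hgp : ∀ x ∈ Al T, 0 < gg T x := fun x hx => lt_of_lt_of_le hc₀ (hg x hx)
  have hgT : ∀ x, gg T' x = gg T x := fun x => rfl
  have hkT : ∀ x ∈ Al T, k₀ ≤ kap V.e₀ T x ∧ k₀ ≤ kap V.e₀ T' x := fun x hx => hU.hA x hx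
  have hkle : ∀ x ∈ Al T, kap V.e₀ T' x ≤ kap V.e₀ T x := by
    intro x hx
    have h3 := hgp x hx
    have h4 : (T'.s x : ℝ) ≤ T.s x := by
      rw [hT']
      unfold Cfg.hf
      simp only
      split
      · push_cast
        have h5 : (V.th : ℝ) ≤ 1 := by exact_mod_cast hth1
        have h6 : (0 : ℝ) ≤ T.s x := NNReal.coe_nonneg _
        nlinarith
      · exact le_rfl
    show V.e₀ + (T'.s x : ℝ) * gg T x ≤ V.e₀ + (T.s x : ℝ) * gg T x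
    have := mul_le_mul_of_nonneg_right h4 h3.le
    linarith
  have hwT : ∀ x ∈ Al T, 0 < ww V.e₀ T x := fun x hx =>
    mul_pos (lt_of_lt_of_le hk₀ (hkT x hx).1) (hgp x hx)
  have hwT' : ∀ x ∈ Al T, 0 < ww V.e₀ T' x ∧ ww V.e₀ T' x ≤ ww V.e₀ T x := fun x hx =>
    ⟨mul_pos (lt_of_lt_of_le hk₀ (hkT x hx).2) (hgp x hx),
      mul_le_mul_of_nonneg_right (hkle x hx) (hgp x hx).le⟩
  have hwm : ∀ x ∈ Al T, k₀ * V.c₀ ≤ ww V.e₀ T' x := fun x hx =>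
    mul_le_mul (hkT x hx).2 (hg x hx) hc₀.le (hk₀.le.trans (hkT x hx).2)
  -- the resistances
  have hoff : ∀ x, x ∉ F → kap V.e₀ T' x = kap V.e₀ T x := by
    intro x hx
    rw [hT']
    unfold kap Cfg.hf
    simp only
    rw [if_neg hx]
  have hlam0 : ∀ x, 0 ≤ lamT V.e₀ T T' F x ∧ lamT V.e₀ T T' F x ≤ 1 / (V.c₀ * k₀) := by
    intro x
    unfold lamT
    split
    · rename_i hx
      have hxA := hFA hx
      have h3 := hgp x hxA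
      have h4 := hkT x hxA
      have h5 : 0 < kap V.e₀ T' x := lt_of_lt_of_le hk₀ h4.2
      have h6 : 0 < kap V.e₀ T x := lt_of_lt_of_le hk₀ h4.1
      have h7 : 1 / kap V.e₀ T x ≤ 1 / kap V.e₀ T' x :=
        one_div_le_one_div_of_le h5 (hkle x hxA)
      constructor
      · exact mul_nonneg (one_div_nonneg.2 h3.le) (by linarith)
      · have h8 : 1 / kap V.e₀ T' x - 1 / kap V.e₀ T x ≤ 1 / k₀ := by
          have h9 : 1 / kap V.e₀ T' x ≤ 1 / k₀ := one_div_le_one_div_of_le hk₀ h4.2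
          have h10 : 0 ≤ 1 / kap V.e₀ T x := one_div_nonneg.2 h6.le
          linarith
        have h9 : 1 / gg T x ≤ 1 / V.c₀ := one_div_le_one_div_of_le hc₀ (hg x hxA)
        calc 1 / gg T x * (1 / kap V.e₀ T' x - 1 / kap V.e₀ T x) ≤ 1 / V.c₀ * (1 / k₀) :=
              mul_le_mul h9 h8 (by linarith) (one_div_nonneg.2 hc₀.le)
          _ = 1 / (V.c₀ * k₀) := by rw [one_div_mul_one_div]
    · exact ⟨le_rfl, by positivity⟩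
  have hτ : ∀ x ∈ Al T, lamT V.e₀ T T' F x = 1 / ww V.e₀ T' x - 1 / ww V.e₀ T x := by
    intro x hx
    have h3 := (hgp x hx).ne'
    have h5 : kap V.e₀ T' x ≠ 0 := (lt_of_lt_of_le hk₀ (hkT x hx).2).ne'
    have h6 : kap V.e₀ T x ≠ 0 := (lt_of_lt_of_le hk₀ (hkT x hx).1).ne'
    unfold lamT ww
    rw [hgT]
    by_cases hF : x ∈ F
    · rw [if_pos hF]
      field_simp
    · rw [if_neg hF, hoff x hF]
      ring
  have hE' : Ef V.E V.e₀ T' = EE (Gr (Hr (Vef T') V.E) (kap V.e₀ T')) (kap V.e₀ T') (Al T) := by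
    unfold Ef
    rw [hal]
    rfl
  have hom : ∀ x, om V.Γ n B x = omB (V.Γ.L n) B x := fun x => by
    unfold om omB
    rw [hΓ]
  simp only [hom]
  rw [hE']
  have hD1 : 0 < V.D₁ := hN.hD0.trans_le hN.hD1
  have hts : 0 ≤ 1 / (V.c₀ * k₀) := by positivity
  refine inc_gen (τ := lamT V.e₀ T T' F) (w := ww V.e₀ T) (w' := ww V.e₀ T') (e1 := e1) (m := m)
    (nn := b.nn n k) (u := u) (u0 := V.u₀) (Dl := V.D₀) (Du := V.D₁) (wm := k₀ * V.c₀) (r0 := r0)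
    hd hU hFA hβ hℓ hℓR (fun x hx => by rw [← hΓ]; exact hFB x hx) hr0 hr8 hβℓ
    (fun y => ?_) hφ1 h (fun x => (hlam0 x).1) (fun x => (hlam0 x).2) (fun x hx => ?_) hwT hwT'
    (by positivity) hwm (fun x hx => ⟨(h1 x hx).1, by linarith [(h1 x hx).2.1]⟩)
    (fun x hx => ⟨(h1 x hx).2.2.1, (h1 x hx).2.2.2⟩) hN.hu0 hτ hN.hD0 hN.hD1 h2 hN.he1 hN.hm
    (fun E1 hE1 f hf => ?_) ((tn_mono hβ hts hnb).trans hN.n1) ((te_mono hβ hts hnb).trans hN.n2)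
    ((tn_mono hβ hts hnb).trans hN.n3) ((te_mono hβ hts hnb).trans hN.n4) hN.n5 hN.n6 hN.n7 hN.n8
  · obtain ⟨x, hx, h3⟩ := hφ y
    rw [hΓ] at h3
    exact ⟨x, hx, h3⟩
  · unfold lamT
    rw [if_neg hx]
  · rw [← hE']
    refine hfrm E1 hE1 f fun x hx => hf x fun h3 => hx ⟨h3.1, ?_⟩
    rw [hΓ]
    exact h3.2

end Pool.Agent.AHH.H22
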