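import Pool.Agent.Helper22_AHH.Frm
import Pool.Agent.Helper89_FAR.Hf
import Pool.Agent.Helper67_AHH.FlOf
import Pool.Agent.Helper58_AHH.Meas

/-!
# The field `frm` of `AHH.Inc` for the block lemma `flOf`
-/

set_option autoImplicit false

open scoped BigOperators NNReal Matrix

noncomputable section

namespace Pool.Agent.AHH.H22

open Pool.Agent.BED (Tor adj ev)
open Pool.Agent.AND2B (net kap Hr Vef)
open Pool.Agent.ANP (Cfg Geo Fc)
open Pool.Agent.ANP.H61 (sd)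
open Pool.Agent.AFJ (EE)
open Pool.Agent.ANR (Gr)
open Pool.Agent.ANR.H89 (Upd Plt GeoF cI cI_pos upd_gen clk_le cl_anti hr_off)
open Pool.Agent.LTG (Fm Bd sT tT qd Lad)
open Pool.Agent.LTG.Inc
open Pool.Agent.LE.QF (qf)

variable {d M : ℕ} [NeZero M]

/-- plateau functions change by at most one across a bond -/
theorem lip_bd {W : Tor d M → ℝ} {E h₀ : ℝ} {φ : Tor d M → ℝ} {S : Finset (Tor d M)}
    (h : Plt (Hr W E) φ S h₀) (e : Bd d M) : |φ (tT e) - φ (sT e)| ≤ 1 := by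
  by_cases hne : φ (tT e) = φ (sT e)
  · rw [hne, sub_self, abs_zero]
    exact zero_le_one
  · have hst : sT e ≠ tT e := fun h1 => hne (by rw [h1])
    have h2 : Hr W E (sT e) (tT e) ≠ 0 := by
      rw [hr_off W E hst]
      have h3 : 0 < adj d M (sT e) (tT e) := by
        unfold adj
        rw [Matrix.of_apply]
        refine Finset.sum_pos' (fun i _ => ?_) ⟨e.1, Finset.mem_univ _, ?_⟩
        · split <;> split <;> norm_num
        · have h4 : tT e = sT e + ev e.1 := rfl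
          rw [if_pos h4]
          split <;> norm_num
      exact h3.ne'
    have h3 := (h.lip (sT e) (tT e) h2 (fun h4 => hne h4.symm)).2.2
    rwa [abs_sub_comm]

/-- FAR for a block update with the strong lower bound of the plateau function -/
theorem upd_strong {V : Env d M} (hΓ : GeoF V.Γ) (hth : V.th ≤ 1)
    (hcl : ∀ k, V.cl (k + 1) = V.th * V.cl k) (hclp : ∀ k, 0 < V.cl k) (hcl1 : V.cl 0 ≤ 1)
    (he : 0 < V.e₀) (hc : 0 < V.c₀) (hc1 : V.c₀ ≤ 1) {n k : ℕ} {P run : Finset (Tor d M)}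
    {T T' : Cfg (Tor d M)} {B : Tor d M} (hg : ∀ x ∈ Al T, V.c₀ ≤ gg T x)
    (hF : Fc V.Γ V.kk V.cl V.Dn n k P T run)
    (hsum : ∑ i ∈ Finset.range (n + 1), (3 ^ d * V.Dn i : ℝ) / V.Γ.L i ≤ 1 / 4)
    (hne : (run ∩ V.Γ.blk n B).Nonempty) (hmb : T'.mb = T.mb)
    (hoff : ∀ x, x ∉ run ∩ V.Γ.blk n B → T'.V x = T.V x ∧ T'.s x = T.s x)
    (hon : ∀ x ∈ run ∩ V.Γ.blk n B, V.cl (k + 1) ≤ T'.s x) :
    run ∩ V.Γ.blk n B ⊆ Al T ∧ ∃ φ : Tor d M → ℝ,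
      Upd (Hr (Vef T) V.E) (Hr (Vef T') V.E) (kap V.e₀ T) (kap V.e₀ T') φ (run ∩ V.Γ.blk n B)
        (Al T) (Al T \ (run ∩ V.Γ.blk n B)) (2 * d) (V.c₀ * V.cl (k + 1))
        (V.c₀ * V.cl (k + 1) / (8 * d)) ∧
      ∀ y, ∃ x ∈ run ∩ V.Γ.blk n B,
        1 / 2 * (V.Γ.D x y : ℝ) - (cI d V.Dn (Finset.range (n + 1)) + 1) ≤ φ y := by
  set b := run ∩ V.Γ.blk n B with hb
  have hbpos : ∀ x ∈ b, 0 < T.s x := fun x hx => by
    have hxr := (Finset.mem_inter.1 hx).1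
    rw [hF.runs x hxr]
    split
    · exact hclp _
    · exact hclp _
  have hiff : ∀ x, 0 < T'.s x ↔ 0 < T.s x := fun x => by
    by_cases hx : x ∈ b
    · exact ⟨fun _ => hbpos x hx, fun _ => lt_of_lt_of_le (hclp _) (hon x hx)⟩
    · rw [(hoff x hx).2]
  have hkapc : ∀ (S : Cfg (Tor d M)) (x : Tor d M), S.mb = T.mb → 0 < T.s x →
      V.cl (k + 1) ≤ S.s x → V.c₀ * V.cl (k + 1) ≤ kap V.e₀ S x := fun S x hS hx hcx => by
    unfold kap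
    have hgx : V.c₀ ≤ (T.mb x).im := hg x (by
      unfold Al; rw [Finset.mem_filter]; exact ⟨Finset.mem_univ _, hx⟩)
    rw [hS]
    have h1 : (V.cl (k + 1) : ℝ) ≤ S.s x := by exact_mod_cast hcx
    have h2 : V.c₀ * V.cl (k + 1) ≤ (S.s x : ℝ) * (T.mb x).im := by
      rw [mul_comm]
      exact mul_le_mul h1 hgx hc.le (S.s x).2
    linarith
  have hpos : ∀ (S : Cfg (Tor d M)), S.mb = T.mb → (∀ x, 0 < S.s x → 0 < T.s x) →
      ∀ x, 0 ≤ (S.s x : ℝ) * (S.mb x).im := fun S hS hSs x => by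
    by_cases hx : 0 < S.s x
    · have hgx : V.c₀ ≤ (T.mb x).im := hg x (by
        unfold Al; rw [Finset.mem_filter]; exact ⟨Finset.mem_univ _, hSs x hx⟩)
      rw [hS]
      exact mul_nonneg (S.s x).2 (hc.le.trans hgx)
    · have : S.s x = 0 := by simpa using hx
      rw [this]; simp
  have hk0 : 0 < V.c₀ * (V.cl (k + 1) : ℝ) := mul_pos hc (by exact_mod_cast hclp _)
  have hk1 : V.c₀ * (V.cl (k + 1) : ℝ) ≤ 1 := by
    have h1 : (V.cl (k + 1) : ℝ) ≤ 1 := by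
      have := (cl_anti hth hcl (Nat.zero_le (k + 1))).trans hcl1
      exact_mod_cast this
    have h2 : (0 : ℝ) ≤ V.cl (k + 1) := (V.cl (k + 1)).2
    nlinarith
  obtain ⟨φ, hU, hlow⟩ := upd_gen hΓ (E := V.E) (e₀ := V.e₀) (k₀ := V.c₀ * V.cl (k + 1)) (T := T)
    (T' := T') (F := b) hne (I := Finset.range (n + 1)) (Dn := V.Dn) he
    (hpos T rfl fun x h => h) (hpos T' hmb fun x h => (hiff x).1 h)
    (fun x hx => ⟨(hoff x hx).1, (hoff x hx).2, by rw [hmb]⟩)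
    (by
      obtain ⟨dd, h1, h2⟩ := hF.dens
      refine ⟨dd, fun x hx => ?_, h2⟩
      obtain ⟨j, hj, hxj⟩ := h1 x hx
      exact ⟨j, Finset.mem_range.2 (by omega), hxj⟩)
    hsum hk0 hk1 (fun x hx => hkapc T x rfl hx (clk_le hth hcl hF hx))
    (fun x hx => by
      by_cases hxb : x ∈ b
      · exact hkapc T' x hmb ((hiff x).1 hx) (hon x hxb)
      · refine hkapc T' x hmb ((hiff x).1 hx) ?_
        rw [(hoff x hxb).2]
        exact clk_le hth hcl hF ((hiff x).1 hx))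
  have hAl : Al T ∩ Al T' = Al T := by
    ext x
    rw [Finset.mem_inter]
    unfold Al
    rw [Finset.mem_filter, Finset.mem_filter]
    exact ⟨fun h => h.1, fun h => ⟨h, Finset.mem_univ _, (hiff x).2 h.2⟩⟩
  rw [hAl] at hU
  refine ⟨fun x hx => ?_, φ, hU, hlow⟩
  unfold Al
  exact Finset.mem_filter.2 ⟨Finset.mem_univ _, hbpos x hx⟩

/-- the field `frm` of `AHH.Inc` -/
def FrmC (V : Env d M) (b : Bud) (n k : ℕ) (B : Tor d M) (T T' : Cfg (Tor d M)) : Prop :=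
  ∀ (εl εu : Tor d M → ℝ) (bl bu : Bd d M → ℝ),
    Fm sT tT (Al T) (ww V.e₀ T) εl εu bl bu (qd (Ef V.E V.e₀ T)) →
    (∀ x ∈ Al T, 0 ≤ εl x ∧ εl x ≤ 1 / 8 ∧ 0 ≤ εu x ∧ εu x ≤ (1 + V.u₀) / 2) →
    (∀ e, V.D₀ / 2 ≤ bl e ∧ V.D₁ ≤ bu e ∧ bu e ≤ 2 * V.D₁) →
    Fm sT tT (Al T) (ww V.e₀ T')
      (fun x => εl x * (ww V.e₀ T' x / ww V.e₀ T x) + b.nn n k * om V.Γ n B x)
      (fun x => εu x * (ww V.e₀ T' x / ww V.e₀ T x) + b.nn n k * om V.Γ n B x)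
      (fun e => bl e - V.D₀ * (b.nn n k * om V.Γ n B (sT e)))
      (fun e => bu e + V.D₁ * (b.nn n k * om V.Γ n B (sT e))) (qd (Ef V.E V.e₀ T'))

/-- `Inc.frm` from the conclusion of the block lemma -/
theorem frm_of (hd : 0 < d) {V : Env d M} (hΓ : GeoF V.Γ) (hD : ∀ x y, V.Γ.D x y = sd x y)
    (hth0 : 0 < V.th) (hth : V.th ≤ 1) (hcl : ∀ k, V.cl (k + 1) = V.th * V.cl k)
    (hclp : ∀ k, 0 < V.cl k) (hcl1 : V.cl 0 ≤ 1) (he : 0 < V.e₀) (hc : 0 < V.c₀)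
    (hc1 : V.c₀ ≤ 1) {bd : Bud} {n k : ℕ} {P run : Finset (Tor d M)} {T : Cfg (Tor d M)}
    {B : Tor d M} (hg : ∀ x ∈ Al T, V.c₀ ≤ gg T x)
    (hF : Fc V.Γ V.kk V.cl V.Dn n k P T run) (hPB : Disjoint P (V.Γ.blk n B))
    (hsum : ∑ i ∈ Finset.range (n + 1), (3 ^ d * V.Dn i : ℝ) / V.Γ.L i ≤ 1 / 4)
    (hL : 8 * (cI d V.Dn (Finset.range (n + 1)) + 1) ≤ V.Γ.L n) (hB : V.Γ.bl n B = B)
    (hne : (run ∩ V.Γ.blk n B).Nonempty) {R : ℕ} (hR : 2 * R = V.Γ.L n) (hL0 : 0 < V.Γ.L n)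
    (hβ : 704 * d ≤ V.c₀ * V.cl (k + 1) / (8 * d) * V.Γ.L n) {m u : ℝ} {p : H67.Par}
    (hN : NumF d V.D₀ V.D₁ V.u₀ (bd.nn n k) (2 * p.ε₁) m u (V.c₀ * V.cl (k + 1) / (8 * d))
      (cI d V.Dn (Finset.range (n + 1)) + 1) (1 / (V.c₀ * (V.c₀ * V.cl (k + 1))))
      (V.c₀ * V.cl (k + 1) * V.c₀) (V.Γ.L n) ((2 * V.Γ.L n + 1) ^ d))
    {Q Q1 U Yg : Finset (Tor d M)} (hQ : ∀ x, x ∈ Al T → V.Γ.D x B ≤ 2 * V.Γ.L n → x ∈ Q)
    (ζ : Tor d M → ℝ)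
    (hG : (H67.flOf V T (run ∩ V.Γ.blk n B) Q Q1 run U Yg k p).Good (fun c => ζ c)) :
    FrmC V bd n k B T (T.hf V.th (run ∩ V.Γ.blk n B) ζ) := by
  set b := run ∩ V.Γ.blk n B with hb
  set T' := T.hf V.th b ζ with hT'
  have hsb : ∀ x ∈ b, T.s x = V.cl k := by
    intro x hx
    obtain ⟨h1, h2⟩ := Finset.mem_inter.1 hx
    rw [hF.runs x h1, if_neg fun h3 => Finset.disjoint_left.1 hPB h3 h2]
  have hoff : ∀ x, x ∉ b → T'.V x = T.V x ∧ T'.s x = T.s x := by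
    intro x hx
    rw [hT']
    unfold Cfg.hf
    simp only
    rw [if_neg hx, if_neg hx]
    exact ⟨rfl, rfl⟩
  have hon : ∀ x ∈ b, V.cl (k + 1) ≤ T'.s x := by
    intro x hx
    rw [hT']
    unfold Cfg.hf
    simp only
    rw [if_pos hx, hsb x hx, hcl]
  obtain ⟨hbA, φ, hU, hφ⟩ := upd_strong hΓ hth hcl hclp hcl1 he hc hc1 hg hF hsum hne
    (T' := T') rfl hoff hon
  have hbB : ∀ x ∈ b, V.Γ.D x B ≤ V.Γ.L n := by
    intro x hx
    have h1 : V.Γ.bl n x = B := by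
      have := (Finset.mem_inter.1 hx).2
      unfold Geo.blk at this
      exact (Finset.mem_filter.1 this).2
    exact hΓ.ok.diam n x B (by rw [h1, hB])
  have hcard : b.card ≤ (2 * V.Γ.L n + 1) ^ d := by
    refine (Finset.card_le_card fun x hx => ?_).trans (hΓ.ok.vol B (V.Γ.L n))
    rw [Finset.mem_filter]
    refine ⟨Finset.mem_univ _, ?_⟩
    rw [hΓ.ok.comm]
    exact hbB x hx
  have hcp : 0 < V.c₀ * (V.cl (k + 1) : ℝ) := mul_pos hc (by exact_mod_cast hclp _)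
  set F := H67.flOf V T b Q Q1 run U Yg k p with hFdef
  obtain ⟨g1, g2⟩ := H58.fl_G0 F V.E V.e₀ T b rfl
  obtain ⟨g3, g4⟩ := H58.fl_Gt F V.E V.e₀ T V.th (V.cl k) b rfl hsb rfl ζ
  have hal := al_hf (T := T) hth0 b ζ
  have hE0 : F.E0 = Ef V.E V.e₀ T := by
    show EE F.G0 (F.k 0) (Al T) = EE (net V.E V.e₀ T) (kap V.e₀ T) (Al T)
    rw [g1, funext g2]
  have hEt : F.Et (F.T, fun c => ζ c) = Ef V.E V.e₀ T' := by
    show EE (F.Gt (F.T, fun c => ζ c)) (F.k F.T) (Al T) = EE (net V.E V.e₀ T') (kap V.e₀ T') (Al T')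
    rw [hal, g3, funext g4]
  have hlam : F.lam F.T = lamT V.e₀ T T' b := by
    funext x
    unfold AFL.Fl.lam lamT
    rw [g4, g2]
    rfl
  intro εl εu bl bu h h1 h2
  have key := inc_frm (b := bd) (ζ := ζ) (e1 := 2 * p.ε₁) (m := m) (u := u) (R := R)
    (r0 := cI d V.Dn (Finset.range (n + 1)) + 1) (nb := (2 * V.Γ.L n + 1) ^ d) hd hD hth0 hth he hc
    hg hU hbA (by positivity) hL0 hR hbB
    (by linarith [cI_pos d V.Dn (Finset.range (n + 1))]) hL hβ hφ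
    (fun e => lip_bd hU.plt e) hcard hN
    (fun E1 hE1 f hf => ?_) εl εu bl bu h h1 h2
  · exact key
  · have h3 := hG.frm E1 (by rw [hE0, hlam]; exact hE1) f
      (fun x hx => hf x fun h4 => hx (hQ x h4.1 h4.2))
    rw [hEt] at h3
    exact h3

end Pool.Agent.AHH.H22
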