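import Pool.Agent.Helper22_AHH.Frm
import Pool.Agent.Helper61_AND.Num

/-!
# The numbers of the field `frm`
-/

set_option autoImplicit false

open scoped BigOperators NNReal Matrix

noncomputable section

namespace Pool.Agent.AHH.H22

open Pool.Agent.AND.Num
open Pool.Agent.LTG.Inc

theorem alg1 {A a σ N n Ld E1 E2 E2' K κ σd Ex : ℝ} (hE1 : 0 ≤ E1) (hE2 : 0 ≤ E2)
    (hN0 : 0 ≤ N) (hK0 : 0 ≤ K) (ha : 0 ≤ a) (hσ : 0 ≤ σ) (hn : 0 ≤ n)
    (hL : 0 ≤ Ld) (hκ : 0 ≤ κ) (hσd : 0 ≤ σd) (hA : A ≤ a * σ) (hN : N ≤ n * Ld)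
    (hE : E2 ≤ E2') (hK : K ≤ κ * σd) (hx : E1 * E2' ≤ Ex) :
    3 * (A * E1) * (N * (E2 * K)) ≤ σ * σd * (3 * a * n * κ * Ld * Ex) := by
  have h1 : N * (E2 * K) ≤ (n * Ld) * (E2' * (κ * σd)) :=
    mul_le_mul hN (mul_le_mul hE hK hK0 (hE2.trans hE)) (by positivity) (by positivity)
  have h2 : 3 * (A * E1) ≤ 3 * (a * σ * E1) :=
    mul_le_mul_of_nonneg_left (mul_le_mul_of_nonneg_right hA hE1) (by norm_num)
  have h3 : 3 * (A * E1) * (N * (E2 * K)) ≤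
      3 * (a * σ * E1) * ((n * Ld) * (E2' * (κ * σd))) :=
    mul_le_mul h2 h1 (by positivity) (by positivity)
  have h4 := mul_le_mul_of_nonneg_left hx (by positivity : 0 ≤ σ * σd * (3 * a * n * κ * Ld))
  calc 3 * (A * E1) * (N * (E2 * K)) ≤ 3 * (a * σ * E1) * ((n * Ld) * (E2' * (κ * σd))) := h3
    _ = σ * σd * (3 * a * n * κ * Ld) * (E1 * E2') := by ring
    _ ≤ σ * σd * (3 * a * n * κ * Ld) * Ex := h4
    _ = _ := by ring

theorem alg2 {A a σ N n Ld E1 E2 E2' K κ σd Ex k β b s : ℝ} (hE1 : 0 ≤ E1) (hE2 : 0 ≤ E2)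
    (hN0 : 0 ≤ N) (hK0 : 0 ≤ K) (ha : 0 ≤ a) (hσ : 0 ≤ σ) (hn : 0 ≤ n)
    (hL : 0 ≤ Ld) (hκ : 0 ≤ κ) (hσd : 0 ≤ σd) (hA : A ≤ a * σ) (hN : N ≤ n * Ld)
    (hE : E2 ≤ E2') (hK : K ≤ κ * σd) (hx : E1 * E2' ^ 2 ≤ Ex) (hb : 0 < b) (hs : 0 < s)
    (hβ : b * s ≤ β) :
    384 * (A * E1) * k ^ 2 * (N * (E2 * K)) ^ 2 / β ^ 2 ≤
      σ * σd ^ 2 * (1 / s) ^ 2 * (384 * a * k ^ 2 * (n * κ) ^ 2 / b ^ 2 * Ld ^ 2 * Ex) := by
  have h1 : N * (E2 * K) ≤ (n * Ld) * (E2' * (κ * σd)) :=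
    mul_le_mul hN (mul_le_mul hE hK hK0 (hE2.trans hE)) (by positivity) (by positivity)
  have h1' : (N * (E2 * K)) ^ 2 ≤ ((n * Ld) * (E2' * (κ * σd))) ^ 2 :=
    pow_le_pow_left₀ (by positivity) h1 2
  have h2 : 384 * (A * E1) * k ^ 2 ≤ 384 * (a * σ * E1) * k ^ 2 :=
    mul_le_mul_of_nonneg_right
      (mul_le_mul_of_nonneg_left (mul_le_mul_of_nonneg_right hA hE1) (by norm_num)) (by positivity)
  have h3 : 384 * (A * E1) * k ^ 2 * (N * (E2 * K)) ^ 2 / β ^ 2 ≤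
      384 * (a * σ * E1) * k ^ 2 * ((n * Ld) * (E2' * (κ * σd))) ^ 2 / (b * s) ^ 2 :=
    div_le_div₀ (by positivity) (mul_le_mul h2 h1' (by positivity) (by positivity))
      (by positivity) (pow_le_pow_left₀ (by positivity) hβ 2)
  have h4 := mul_le_mul_of_nonneg_left hx
    (by positivity : 0 ≤ σ * σd ^ 2 * (1 / s) ^ 2 * (384 * a * k ^ 2 * (n * κ) ^ 2 / b ^ 2 * Ld ^ 2))
  calc 384 * (A * E1) * k ^ 2 * (N * (E2 * K)) ^ 2 / β ^ 2
      ≤ 384 * (a * σ * E1) * k ^ 2 * ((n * Ld) * (E2' * (κ * σd))) ^ 2 / (b * s) ^ 2 := h3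
    _ = σ * σd ^ 2 * (1 / s) ^ 2 * (384 * a * k ^ 2 * (n * κ) ^ 2 / b ^ 2 * Ld ^ 2) *
        (E1 * E2' ^ 2) := by
      field_simp
    _ ≤ _ := h4
    _ = _ := by ring

/-- the factors of the tails -/
theorem factors {d : ℕ} (hd : 1 ≤ d) {c b s q r0 β : ℝ} {ℓ : ℕ} (hc : 0 < c) (hc1 : c ≤ 1)
    (hs : 0 < s) (hs1 : s ≤ 1) (hb : b = c / (16 * d)) (hβ : β = c * q / (8 * d))
    (hq1 : s / 2 ≤ q) (hL1 : (1 : ℝ) ≤ ℓ) (hr : 8 * r0 ≤ ℓ) :
    b * s ≤ β ∧ 8 + 4 * (1 / (c * (c * q))) ≤ 16 / c ^ 2 * (1 / s) ∧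
      (((2 * ℓ + 1) ^ d : ℕ) : ℝ) ≤ 3 ^ d * (ℓ : ℝ) ^ d ∧
      (1 + 16 / (β * (1 / (2 * (d : ℝ))))) ^ d ≤ (33 * d / b) ^ d * (1 / s) ^ d ∧
      Real.exp (β / 8 * r0) ≤ Real.exp (β * ℓ / 64) ∧
      Real.exp (-(β / 2 * ((ℓ : ℝ) / 8))) * Real.exp (β * ℓ / 64) ≤
        Real.exp (-(b / 32 * s * ℓ)) ∧
      Real.exp (-(β / 2 * ((ℓ : ℝ) / 8))) * Real.exp (β * ℓ / 64) ^ 2 ≤
        Real.exp (-(b / 32 * s * ℓ)) := by
  have hd1 : (1 : ℝ) ≤ d := by exact_mod_cast hd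
  have hd0 : (0 : ℝ) < d := by linarith
  have hb0 : 0 < b := by rw [hb]; positivity
  have hb1 : b ≤ 1 := by
    rw [hb, div_le_one (by positivity)]
    linarith
  have hq0 : 0 < q := by linarith
  have hL0 : (0 : ℝ) < ℓ := by linarith
  have hβ0 : 0 < β := by rw [hβ]; positivity
  have hβb : b * s ≤ β := by
    rw [hβ, hb, div_mul_eq_mul_div, div_le_div_iff₀ (by positivity) (by positivity)]
    have h3 : c * s ≤ c * (2 * q) := mul_le_mul_of_nonneg_left (by linarith) hc.le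
    nlinarith
  have hbs : 0 < b * s := by positivity
  refine ⟨hβb, ?_, ?_, ?_, ?_, ?_, ?_⟩
  · have e1 : 1 / (c * (c * q)) ≤ 2 / (c ^ 2 * s) := by
      rw [div_le_div_iff₀ (by positivity) (by positivity)]
      have h3 : c ^ 2 * s ≤ c ^ 2 * (2 * q) := mul_le_mul_of_nonneg_left (by linarith) (by positivity)
      nlinarith
    have e2 : (8 : ℝ) ≤ 8 / (c ^ 2 * s) := by
      rw [le_div_iff₀ (by positivity)]
      have h3 : c ^ 2 * s ≤ 1 := by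
        have h4 : c ^ 2 ≤ 1 := pow_le_one₀ hc.le hc1
        nlinarith
      linarith
    have e3 : 16 / c ^ 2 * (1 / s) = 8 / (c ^ 2 * s) + 4 * (2 / (c ^ 2 * s)) := by
      field_simp
      norm_num
    rw [e3]
    linarith
  · push_cast
    rw [← mul_pow]
    exact pow_le_pow_left₀ (by positivity) (by linarith) d
  · rw [← mul_pow]
    refine pow_le_pow_left₀ (by positivity) ?_ d
    have e1 : 16 / (β * (1 / (2 * (d : ℝ)))) = 32 * d / β := by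
      field_simp
      norm_num
    have e2 : 32 * d / β ≤ 32 * d / (b * s) := div_le_div_of_nonneg_left (by positivity) hbs hβb
    have e3 : (1 : ℝ) ≤ d / (b * s) := by
      rw [le_div_iff₀ hbs, one_mul]
      nlinarith
    have e4 : 33 * d / b * (1 / s) = d / (b * s) + 32 * d / (b * s) := by
      field_simp
      ring
    rw [e1, e4]
    linarith
  · apply Real.exp_le_exp.2
    have h3 := mul_le_mul_of_nonneg_left hr (by positivity : 0 ≤ β / 64)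
    linarith
  · rw [← Real.exp_add]
    apply Real.exp_le_exp.2
    have h3 := mul_le_mul_of_nonneg_right hβb hL0.le
    have h4 := mul_pos hβ0 hL0
    linarith
  · rw [← Real.exp_nat_mul, ← Real.exp_add]
    apply Real.exp_le_exp.2
    push_cast
    have h3 := mul_le_mul_of_nonneg_right hβb hL0.le
    have h4 := mul_pos hβ0 hL0
    linarith

/-- the two tails are small -/
theorem tails (d : ℕ) (hd : 1 ≤ d) (c : ℝ) (hc : 0 < c) (hc1 : c ≤ 1) :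
    Small fun s => ∀ (q r0 : ℝ) (ℓ : ℕ), s / 2 ≤ q → s ^ (-(5 : ℝ)) ≤ ℓ → 8 * r0 ≤ ℓ →
      TN' d (c * q / (8 * d)) r0 (1 / (c * (c * q))) ℓ ((2 * ℓ + 1) ^ d) ≤ s ^ 3 ∧
      TE' d (c * q / (8 * d)) r0 (1 / (c * (c * q))) ℓ ((2 * ℓ + 1) ^ d) ≤ s ^ 3 := by
  have hd1 : (1 : ℝ) ≤ d := by exact_mod_cast hd
  have hd0 : (0 : ℝ) < d := by linarith
  obtain ⟨b, hb⟩ : ∃ b : ℝ, b = c / (16 * d) := ⟨_, rfl⟩
  have hb0 : 0 < b := by rw [hb]; positivity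
  have h1 := small_exp_dist (3 * (16 / c ^ 2) * 3 ^ d * (33 * d / b) ^ d) (b / 32) 5
    ((d : ℝ) + 4) d (by positivity) (by positivity) (by norm_num)
  have h2 := small_exp_dist
    (384 * (16 / c ^ 2) * (22 * d) ^ 2 * (3 ^ d * (33 * d / b) ^ d) ^ 2 / b ^ 2) (b / 32) 5
    (2 * (d : ℝ) + 6) (d * 2) (by positivity) (by positivity) (by norm_num)
  refine ((h1.and h2).and (small_le 1 one_pos)).mono ?_
  clear h1 h2
  rintro s hs ⟨⟨h1, h2⟩, hs1⟩ q r0 ℓ hq1 hℓ hr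
  have hq0 : 0 < q := by linarith
  have h1 := h1 ℓ hℓ
  have h2 := h2 ℓ hℓ
  have hL1 : (1 : ℝ) ≤ ℓ := by
    refine le_trans ?_ hℓ
    exact Real.one_le_rpow_of_pos_of_le_one_of_nonpos hs hs1 (by norm_num)
  have hL0 : (0 : ℝ) ≤ ℓ := by linarith
  obtain ⟨β, hβ⟩ : ∃ β : ℝ, β = c * q / (8 * d) := ⟨_, rfl⟩
  have hβ0 : 0 < β := by rw [hβ]; positivity
  obtain ⟨hβb, f1, f2, f3, f4, f5, f6⟩ := factors hd hc hc1 hs hs1 hb hβ hq1 hL1 hr
  rw [← hβ]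
  have hK0 : 0 ≤ (1 + 16 / (β * (1 / (2 * (d : ℝ))))) ^ d := by positivity
  have hκ0 : 0 ≤ (33 * d / b) ^ d := by positivity
  rw [pow_mul] at h2
  have hs' : (1 / s) * (1 / s) ^ d * s ^ ((d : ℝ) + 4) = s ^ 3 := by
    have e1 : s ^ ((d : ℝ) + 4) = s ^ d * s ^ 4 := by
      rw [← pow_add, ← Real.rpow_natCast]
      push_cast
      rfl
    rw [e1, one_div, inv_pow]
    field_simp
  have hs'' : (1 / s) * ((1 / s) ^ d) ^ 2 * (1 / s) ^ 2 * s ^ (2 * (d : ℝ) + 6) = s ^ 3 := by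
    have e1 : s ^ (2 * (d : ℝ) + 6) = (s ^ d) ^ 2 * s ^ 6 := by
      rw [← pow_mul, ← pow_add, ← Real.rpow_natCast]
      push_cast
      congr 1
      ring
    rw [e1, one_div, inv_pow]
    field_simp
  constructor
  · unfold TN' LTG.Fst.TN
    refine (alg1 (a := 16 / c ^ 2) (σ := 1 / s) (n := 3 ^ d) (Ld := (ℓ : ℝ) ^ d)
      (κ := (33 * d / b) ^ d) (σd := (1 / s) ^ d) (Real.exp_pos _).le (Real.exp_pos _).le
      (Nat.cast_nonneg _) hK0 (by positivity) (by positivity) (by positivity) (by positivity)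
      hκ0 (by positivity) f1 f2 f4 f3 f5).trans ?_
    rw [← hs']
    exact mul_le_mul_of_nonneg_left h1 (by positivity)
  · unfold TE' LTG.Fst.TE
    refine (alg2 (a := 16 / c ^ 2) (σ := 1 / s) (n := 3 ^ d) (Ld := (ℓ : ℝ) ^ d)
      (κ := (33 * d / b) ^ d) (σd := (1 / s) ^ d) (Real.exp_pos _).le (Real.exp_pos _).le
      (Nat.cast_nonneg _) hK0 (by positivity) (by positivity) (by positivity) (by positivity)
      hκ0 (by positivity) f1 f2 f4 f3 f6 hb0 hs hβb).trans ?_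
    rw [← hs'']
    exact mul_le_mul_of_nonneg_left h2 (by positivity)

end Pool.Agent.AHH.H22
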